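import Pool.Agent.H37.CTN.Stmts

/-!
# Row `N47` of the board `ctn`
-/

set_option autoImplicit false

namespace Pool.CND

open Finset Polynomial

namespace H18N47

variable {k L : Type} [Field k] [Field L] [Algebra k L]

lemma ord_one (P : Place k L) : P.ord 1 = 0 := by
  have h := P.ord_mul 1 1 one_ne_zero one_ne_zero
  rw [mul_one] at h
  omega

lemma ord_neg (P : Place k L) (x : L) (hx : x ≠ 0) : P.ord (-x) = P.ord x := by
  have h1 : P.ord (-1 : L) = 0 := by
    have h := P.ord_const (-1) (neg_ne_zero.mpr one_ne_zero)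
    rw [map_neg, map_one] at h
    exact h
  have h2 := P.ord_mul (-1) x (neg_ne_zero.mpr one_ne_zero) hx
  rw [neg_one_mul, h1, zero_add] at h2
  exact h2

lemma ord_pow (P : Place k L) (x : L) (hx : x ≠ 0) (n : ℕ) : P.ord (x ^ n) = n * P.ord x := by
  induction n with
  | zero => rw [pow_zero, ord_one, Nat.cast_zero, zero_mul]
  | succ n ih =>
    rw [pow_succ, P.ord_mul _ _ (pow_ne_zero n hx) hx, ih]
    push_cast
    ring

lemma ord_div (P : Place k L) (x y : L) (hx : x ≠ 0) (hy : y ≠ 0) :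
    P.ord (x / y) = P.ord x - P.ord y := by
  have h := P.ord_mul (x / y) y (div_ne_zero hx hy) hy
  rw [div_mul_cancel₀ x hy] at h
  omega

lemma ord_sub (P : Place k L) (x y : L) (B : ℤ) (hx : x ≠ 0) (hy : y ≠ 0) (h1 : B ≤ P.ord x)
    (h2 : B ≤ P.ord y) : x - y = 0 ∨ B ≤ P.ord (x - y) := by
  by_cases h : x - y = 0
  · exact Or.inl h
  · right
    have h3 := P.ord_add x (-y) hx (neg_ne_zero.mpr hy) (by rwa [← sub_eq_add_neg])
    rw [← sub_eq_add_neg, ord_neg P y hy] at h3
    exact le_trans (le_min h1 h2) h3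

lemma ord_sgn (P : Place k L) (n : ℕ) (x : L) (hx : x ≠ 0) :
    P.ord ((-1) ^ n * x) = P.ord x := by
  rcases neg_one_pow_eq_or L n with h | h
  · rw [h, one_mul]
  · rw [h, neg_one_mul, ord_neg P x hx]

lemma sum_single {F : Type} [Field F] [Algebra F k] {n : ℕ} (X : Fin n → L) (i : Fin n) :
    ∑ j, cst k F L ((Pi.single i (1 : F) : Fin n → F) j) * X j = X i := by
  rw [Finset.sum_eq_single i]
  · rw [Pi.single_eq_same]
    simp [cst]
  · intro j _ hj
    rw [Pi.single_eq_of_ne hj]
    simp [cst]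
  · intro h
    exact absurd (Finset.mem_univ i) h

end H18N47

open H18N47

theorem n47_thm (h1 : S_N43) (h2 : S_N46) (h3 : S_N44) : S_N47 := by
  intro p k F L _ _ _ _ _ _ _ f q r m κ t X α R P hp hch hf hq hF hm hκ hN hO hA
  have hq2 : 2 ≤ q := by
    rw [hq]
    exact le_trans hp.two_le (Nat.le_self_pow (by omega) p)
  have hq2' : (2 : ℤ) ≤ q := by exact_mod_cast hq2
  have hX0 : X 0 ≠ 0 := by
    intro h0
    have h4 := hN.ind (Pi.single 0 1) (by rw [sum_single]; exact h0)
    have h5 := congrFun h4 0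
    rw [Pi.single_eq_same] at h5
    exact one_ne_zero h5
  have hA0 : 0 < P.ord (X 0) := by
    have h4 := hO.small
    have h5 := hO.neg
    by_contra hc
    nlinarith
  constructor
  · intro i hi
    have hi0 : lowi m i ≠ 0 := by
      intro h
      apply hi
      have h4 := congrArg Fin.val h
      apply Fin.ext
      simpa [lowi] using h4
    obtain ⟨τ, hτ⟩ := h1 p k F L f q r m κ t X P hp hch hf hq hF hm hκ hN hO (lowi m i) hi0
      (by simp only [lowi]; omega)
    refine ⟨τ, ?_⟩
    intro Z hZ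
    by_cases hx : X (lowi m i) - algebraMap k L τ = 0
    · left
      rw [hx, zero_div] at hZ
      rw [hZ, zero_pow (by omega), sub_zero]
    · have hτ' := hτ.resolve_left (fun h => hx (sub_eq_zero.mpr h))
      have hZ0 : Z ≠ 0 := by
        rw [hZ]
        exact div_ne_zero hx hX0
      have hoZ : P.ord Z = P.ord (X (lowi m i) - algebraMap k L τ) - P.ord (X 0) := by
        rw [hZ, ord_div P _ _ hx hX0]
      have h4 := hO.small
      have h5 : -P.ord (X 0) ≤ q * P.ord Z := by
        rw [hoZ]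
        nlinarith
      have h6 : -P.ord (X 0) ≤ P.ord Z := by
        by_contra hc
        nlinarith
      exact ord_sub P _ _ _ (pow_ne_zero q hZ0) hZ0 (by rw [ord_pow P Z hZ0]; exact h5) h6
  · intro i hi j Z hZ
    right
    obtain ⟨hR, -, hM⟩ := h2 p k F L f q r m κ t X α R P hp hch hf hq hF hm hκ hN hO hA
    obtain ⟨hMi, hMo⟩ := hM i hi
    have hMr := (h3 p k F L f q r m κ t X P hp hch hf hq hF hm hN hO).1
    have hr := hR (Pi.single (topi r j) 1) ⟨topi r j, by simp only [topi]; omega, by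
      rw [Pi.single_eq_same]; exact one_ne_zero⟩
    rw [sum_single] at hr
    obtain ⟨hr0, hr1⟩ := hr
    have hart := hA.art (X (topi r j)) i
    rw [← hZ] at hart
    have hq0 : (Mo q r (lowX X ∘ i.succAbove) / Mo q (r + 1) (lowX X)) ≠ 0 :=
      div_ne_zero hMi hA.mo
    have hoq : P.ord ((Mo q r (lowX X ∘ i.succAbove) / Mo q (r + 1) (lowX X)) ^ q) = 0 := by
      rw [ord_pow P _ hq0, ord_div P _ _ hMi hA.mo, hMo, hMr, sub_self, mul_zero]
    have ho : P.ord (Z ^ q - Z) = P.ord (R (X (topi r j))) := by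
      rw [hart, mul_assoc, ord_sgn P _ _ (mul_ne_zero hr0 (pow_ne_zero q hq0)),
        P.ord_mul _ _ hr0 (pow_ne_zero q hq0), hoq, add_zero]
    rw [ho]
    have h4 := hO.small
    have h5 : (q : ℤ) ≤ (q : ℤ) ^ m := by
      have h6 : (q : ℤ) ^ 1 ≤ (q : ℤ) ^ m := pow_le_pow_right₀ (by omega) hm
      rwa [pow_one] at h6
    by_contra hc
    have hc' : P.ord (R (X (topi r j))) < -P.ord (X 0) := not_le.mp hc
    nlinarith

end Pool.CND
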